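import Pool.Agent.Helper16.AZ.Defs
import Pool.Agent.Helper16.MD.Stmts
import Pool.Agent.Helper40.MR.Defs
import Pool.Agent.Helper40.Free.FDefs

/-!
Moebius disjointness of compact group extensions of minimal rotations of the torus:
statements of the modules (MP_7a8f48_an). Every module proves one `ST_X` from earlier ones,
which are hypotheses of its theorem.
-/

open Finset Filter MeasureTheory Topology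
open scoped ComplexConjugate InnerProductSpace

namespace Pool.Agent.Helper16.AZ

open Pool.Agent.Helper16.MD (MS PB Am RW Rich)
open UnitAddTorus (mFourier)

/-! ## Block K: the criterion of Katai with all the primes of a block -/

/-- KT1: a block with large correlations. -/
def ST_KT1 : Prop := ∀ (η : ℝ) (R : Finset ℕ) (f : ℕ → ℂ), 0 < η → (∀ n, ‖f n‖ ≤ 1) →
  (∀ i ∈ R, 24 / η ≤ (2 : ℝ) ^ i) → 64 / η ^ 2 ≤ Am 1 R →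
  (∃ᶠ N : ℕ in atTop, η * N ≤ ‖MS f N‖) →
  ∃ i ∈ R, ∀ Γ : ℕ → ℕ → ℝ,
  (∀ p ∈ PB 1 i, ∀ p' ∈ PB 1 i, 0 ≤ Γ p p' ∧ ∀ ε : ℝ, 0 < ε → ∃ M₀ : ℕ, ∀ M : ℕ, M₀ ≤ M →
      ‖∑ y ∈ Icc 1 M, f (p * y) * conj (f (p' * y))‖ ≤ (Γ p p' + ε) * M) →
  (η / 32) ^ 2 * ((PB 1 i).card : ℝ) ^ 2 ≤ ∑ p ∈ PB 1 i, ∑ p' ∈ PB 1 i, Γ p p'

/-- EQD: equidistribution. -/
def ST_EQD : Prop := ∀ (r : ℕ) (β : T r), Ind β → ∀ F : T r → ℂ, Continuous F → ∀ x : T r,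
  Tendsto (fun N : ℕ => (∑ n ∈ range N, F (x + n • β)) / (N : ℂ)) atTop (𝓝 (∫ θ, F θ ∂(mm r)))

/-- VDH: the inequality of van der Corput in a Hilbert space. -/
def ST_VDH : Prop := ∀ (V : Type) [NormedAddCommGroup V] [InnerProductSpace ℂ V] (t : ℕ → V)
  (M H : ℕ), (∀ y, ‖t y‖ ≤ 1) → 1 ≤ H →
  (H : ℝ) ^ 2 * ‖∑ y ∈ Icc 1 M, t y‖ ^ 2 ≤
    M * (∑ h ∈ range H, ∑ h' ∈ range H, ∑ y ∈ Icc 1 M,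
      (inner ℂ (t (y + h)) (t (y + h')) : ℂ).re) + 4 * (H : ℝ) ^ 3 * M + 4 * (H : ℝ) ^ 4

/-- GAM: bound for the correlations. -/
def ST_GAM : Prop := ∀ (r d : ℕ) (β : T r) (φ : T r → Op d) (b : T r → E d) (u : E d) (x : T r)
  (H P P' : ℕ), Ind β → UC φ → Continuous b → (∀ θ, ‖b θ‖ ≤ 1) → ‖u‖ ≤ 1 → 1 ≤ H →
  0 ≤ GG β φ b x H P P' ∧ ∀ ε : ℝ, 0 < ε → ∃ M₀ : ℕ, ∀ M : ℕ, M₀ ≤ M →
    ‖∑ y ∈ Icc 1 M, ff β φ b u x (P * y) * conj (ff β φ b u x (P' * y))‖ ≤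
      (Real.sqrt (GG β φ b x H P P') + ε) * M

/-- EXV: expansion of the sum of the bounds. -/
def ST_EXV : Prop := ∀ (r d : ℕ) (β : T r) (φ : T r → Op d) (b : T r → E d) (x : T r) (H : ℕ)
  (B : Finset ℕ), UC φ → Continuous b →
  ∑ p ∈ B, ∑ p' ∈ B, GG β φ b x H p p' =
    (∑ h ∈ range H, ∑ h' ∈ range H,
      ∫ θ, ‖∑ p ∈ B, EE β φ b (p * h) (p * h') (x + p • θ)‖ ^ 2 ∂(mm r)) / (H : ℝ) ^ 2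

/-! ## Block F: Fourier analysis on the torus -/

/-- FPV: Parseval's identity. -/
def ST_FPV : Prop := ∀ (r : ℕ) (F : T r → ℂ), Continuous F →
  HasSum (fun X : Fin r → ℤ => ‖fc F X‖ ^ 2) (∫ θ, ‖F θ‖ ^ 2 ∂(mm r))

/-- FTR: Fourier coefficients of a dilated function. -/
def ST_FTR : Prop := ∀ (r : ℕ) (F : T r → ℂ) (x : T r) (p : ℕ) (Z : Fin r → ℤ), Continuous F →
  1 ≤ p → ((∀ i, (p : ℤ) ∣ Z i) → fc (fun θ => F (x + p • θ)) Z =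
    fc F (fun i => Z i / p) * mFourier (fun i => Z i / p) x) ∧
  ((¬ ∀ i, (p : ℤ) ∣ Z i) → fc (fun θ => F (x + p • θ)) Z = 0)

/-- TLR: high frequencies. -/
def ST_TLR : Prop := ∀ (r : ℕ) (F : T r → ℂ) (M : ℕ) (δ : ℝ), Continuous F → 1 ≤ M → 0 ≤ δ →
  (∀ θ s : T r, ‖s‖ ≤ 1 / (M : ℝ) → ‖F (θ + s) - F θ‖ ≤ δ) →
  ∀ A : Finset (Fin r → ℤ), (∀ X ∈ A, ∃ j, (M : ℤ) < |X j|) → ∑ X ∈ A, ‖fc F X‖ ^ 2 ≤ r * δ ^ 2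

/-- FUR: the mean square of a sum of dilated functions. -/
def ST_FUR : Prop := ∀ (r : ℕ) (x : T r) (B : Finset ℕ) (F : ℕ → T r → ℂ) (M n₀ : ℕ) (τ : ℝ),
  (∀ p ∈ B, 1 ≤ p) → (∀ p ∈ B, Continuous (F p) ∧ ∀ θ, ‖F p θ‖ ≤ 1) → 0 ≤ τ →
  (∀ Z : Fin r → ℤ, Z ≠ 0 → ∀ S ⊆ B,
    (∀ p ∈ S, ∃ Y : Fin r → ℤ, Z = (p : ℤ) • Y ∧ ∀ j, |Y j| ≤ (M : ℤ)) → S.card ≤ n₀) →
  (∀ p ∈ B, ∀ A : Finset (Fin r → ℤ), (∀ X ∈ A, ∃ j, (M : ℤ) < |X j|) →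
    ∑ X ∈ A, ‖fc (F p) X‖ ^ 2 ≤ τ) →
  ∫ θ, ‖∑ p ∈ B, F p (x + p • θ)‖ ^ 2 ∂(mm r) ≤ ‖∑ p ∈ B, ∫ θ, F p θ ∂(mm r)‖ ^ 2 +
    2 * ((n₀ : ℝ) * B.card + τ * (B.card : ℝ) ^ 2)

/-- CNT: primes dividing a vector. -/
def ST_CNT : Prop := ∀ (r i m : ℕ) (Z : Fin r → ℤ), Z ≠ 0 → ∀ S ⊆ PB 1 i,
  (∀ p ∈ S, ∃ Y : Fin r → ℤ, Z = (p : ℤ) • Y ∧ ∀ j, |Y j| ≤ ((2 ^ m : ℕ) : ℤ)) →
  i * S.card ≤ i + 1 + m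

/-- FUM: the mean square of a sum over a block of primes. -/
def ST_FUM : Prop := ∀ (r i m : ℕ) (x : T r) (F : ℕ → T r → ℂ) (δ : ℝ), 1 ≤ i → Rich 1 i →
  (∀ p ∈ PB 1 i, Continuous (F p) ∧ ∀ θ, ‖F p θ‖ ≤ 1) → 0 ≤ δ →
  (∀ p ∈ PB 1 i, ∀ θ s : T r, ‖s‖ ≤ 1 / (2 : ℝ) ^ m → ‖F p (θ + s) - F p θ‖ ≤ δ) →
  ∫ θ, ‖∑ p ∈ PB 1 i, F p (x + p • θ)‖ ^ 2 ∂(mm r) ≤
    ‖∑ p ∈ PB 1 i, ∫ θ, F p θ ∂(mm r)‖ ^ 2 +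
      (8 * ((i : ℝ) + 1 + m) / 2 ^ i + 2 * r * δ ^ 2) * ((PB 1 i).card : ℝ) ^ 2

/-- MOD: modulus of continuity. -/
def ST_MOD : Prop := ∀ (r d : ℕ) (β : T r) (φ : T r → Op d) (c : T r → E d) (t ω ω' : ℝ)
  (K k k' : ℕ), UC φ → (∀ θ, ‖c θ‖ ≤ 1) →
  (∀ θ θ' : T r, dist θ θ' ≤ t → ‖φ θ - φ θ'‖ ≤ ω ∧ ‖c θ - c θ'‖ ≤ ω') → k ≤ K → k' ≤ K →
  ∀ θ s : T r, ‖s‖ ≤ t → ‖EE β φ c k k' (θ + s) - EE β φ c k k' θ‖ ≤ 2 * (K * ω + ω')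

/-- ASY: choice of the parameters. -/
def ST_ASY : Prop := ∀ (r d : ℕ) (β : T r) (φ : T r → Op d) (c : T r → E d) (Cn : ℕ) (κ : ℝ),
  UC φ → LM φ → Continuous c → (∀ θ, ‖c θ‖ ≤ 1) → 0 < κ → ∃ I₀ : ℕ, ∀ i : ℕ, I₀ ≤ i →
  ∃ (m : ℕ) (δ : ℝ), 0 ≤ δ ∧ 8 * ((i : ℝ) + 1 + m) / 2 ^ i + 2 * r * δ ^ 2 ≤ κ ∧
  ∀ p ∈ PB 1 i, ∀ h < Cn * 2 ^ i, ∀ h' < Cn * 2 ^ i, ∀ θ s : T r, ‖s‖ ≤ 1 / (2 : ℝ) ^ m →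
    ‖EE β φ c (p * h) (p * h') (θ + s) - EE β φ c (p * h) (p * h') θ‖ ≤ δ

/-! ## Block W: the unitary operator -/

/-- WOP: the operator. -/
def ST_WOP : Prop := ∀ (r d : ℕ) (β : T r) (φ : T r → Op d), UC φ →
  ∃ W : LL r d →L[ℂ] LL r d, W ∈ unitary (LL r d →L[ℂ] LL r d) ∧ Act β φ W

/-- WPW: the powers of the operator. -/
def ST_WPW : Prop := ∀ (r d : ℕ) (β : T r) (φ : T r → Op d) (W : LL r d →L[ℂ] LL r d)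
  (c : T r → E d) (f : LL r d), UC φ → Act β φ W → Continuous c →
  (∀ᵐ θ ∂(mm r), (f : T r → E d) θ = c θ) →
  (∀ k : ℕ, ∀ᵐ θ ∂(mm r), ((W ^ k) f : T r → E d) θ = Wk β φ k c θ) ∧
  ∀ k k' : ℕ, inner ℂ ((W ^ k) f) ((W ^ k') f) = ∫ θ, EE β φ c k k' θ ∂(mm r)

/-- MSR: the spectral measure and its atoms. -/
def ST_MSR : Prop := ∀ (V : Type) [NormedAddCommGroup V] [InnerProductSpace ℂ V] [CompleteSpace V]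
  (U : V →L[ℂ] V) (ξ : V), U ∈ unitary (V →L[ℂ] V) → ∃ ν : Measure ℂ, IsFiniteMeasure ν ∧
  (∀ᵐ z ∂ν, ‖z‖ = 1) ∧ (∀ n : ℕ, ∫ z, z ^ n ∂ν = inner ℂ ξ ((U ^ n) ξ)) ∧
  ∀ z₀ : ℂ, ‖z₀‖ = 1 → ∃ η : V, ‖η‖ ≤ ‖ξ‖ ∧ U η = z₀ • η ∧
    inner ℂ ξ η = (((ν {z₀}).toReal : ℝ) : ℂ)

/-- TWP: two primes. -/
def ST_TWP : Prop := ∀ (i p p' : ℕ) (z : ℂ) (a : ℝ), p.Prime → p'.Prime → p ≠ p' →
  2 ^ i < p → 2 ^ i < p' → p ≤ 2 ^ (i + 1) → p' ≤ 2 ^ (i + 1) → ‖z‖ = 1 → 0 ≤ a →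
  (2 : ℝ) ^ i * a < 1 → ‖z ^ p - 1‖ ≤ a → ‖z ^ p' - 1‖ ≤ a → ‖z - 1‖ ≤ 2 * a / 2 ^ i

/-- AVG: exponential sums over the multiples of the primes of a block. -/
def ST_AVG : Prop := ∀ (κ : ℝ) (Cn i : ℕ) (z : ℂ), 0 < κ → κ ≤ 1 → 4 / κ < (Cn : ℝ) → ‖z‖ = 1 →
  8 / (κ * Cn * 4 ^ i) < ‖z - 1‖ →
  ∑ p ∈ PB 1 i, ‖∑ h ∈ range (Cn * 2 ^ i), z ^ (p * h)‖ ^ 2 ≤
    ((Cn : ℝ) * 2 ^ i) ^ 2 * (1 + κ / 4 * (PB 1 i).card)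

/-- ATA: a measure with an atom. -/
def ST_ATA : Prop := ∀ (κ : ℝ) (Cn : ℕ) (ν : Measure ℂ) [IsFiniteMeasure ν], 0 < κ →
  κ ≤ 1 → 4 / κ < (Cn : ℝ) → (ν Set.univ).toReal ≤ 1 → (∀ᵐ z ∂ν, ‖z‖ = 1) →
  (∃ᶠ i : ℕ in atTop, Rich 1 i ∧ κ * (PB 1 i).card * ((Cn : ℝ) * 2 ^ i) ^ 2 <
    ∑ p ∈ PB 1 i, ∫ z : ℂ × ℂ,
      ‖∑ h ∈ range (Cn * 2 ^ i), (z.1 * conj z.2) ^ (p * h)‖ ^ 2 ∂(ν.prod ν)) →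
  ∃ z₀ : ℂ, ‖z₀‖ = 1 ∧ κ / 2 ≤ (ν {z₀}).toReal

/-- ATM: large correlations come from an eigenvector. -/
def ST_ATM : Prop := ∀ (κ : ℝ) (Cn : ℕ), 0 < κ → κ ≤ 1 → 4 / κ < (Cn : ℝ) →
  ∀ (V : Type) [NormedAddCommGroup V] [InnerProductSpace ℂ V] [CompleteSpace V]
  (U : V →L[ℂ] V) (ξ : V), U ∈ unitary (V →L[ℂ] V) → ‖ξ‖ ≤ 1 →
  (∃ᶠ i : ℕ in atTop, Rich 1 i ∧ κ * (PB 1 i).card * ((Cn : ℝ) * 2 ^ i) ^ 2 <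
    ∑ p ∈ PB 1 i, ∑ h ∈ range (Cn * 2 ^ i), ∑ h' ∈ range (Cn * 2 ^ i),
      ‖(inner ℂ ((U ^ (p * h)) ξ) ((U ^ (p * h')) ξ) : ℂ)‖ ^ 2) →
  ∃ η : V, ‖η‖ ≤ 1 ∧ Eig U η ∧ κ / 2 ≤ ‖(inner ℂ η ξ : ℂ)‖

/-- L1Z: uniqueness of Fourier coefficients. -/
def ST_L1Z : Prop := ∀ (r : ℕ) (F : T r → ℂ), Integrable F (mm r) →
  (∀ X : Fin r → ℤ, ∫ θ, mFourier X θ * F θ ∂(mm r) = 0) → ∀ᵐ θ ∂(mm r), F θ = 0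

/-- PIN: pointwise orthogonality. -/
def ST_PIN : Prop := ∀ (r d : ℕ) (β : T r) (φ : T r → Op d) (W : LL r d →L[ℂ] LL r d), UC φ →
  Act β φ W → ∀ f ∈ PP W, ∀ g ∈ (PP W)ᗮ,
  ∀ᵐ θ ∂(mm r), (inner ℂ ((f : T r → E d) θ) ((g : T r → E d) θ) : ℂ) = 0

/-- DEW: the component orthogonal to the eigenvectors. -/
def ST_DEW : Prop := ∀ (r d : ℕ) (β : T r) (φ : T r → Op d) (W : LL r d →L[ℂ] LL r d)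
  (v : LL r d), UC φ → Act β φ W → (∀ᵐ θ ∂(mm r), ‖(v : T r → E d) θ‖ ≤ 1) →
  ∃ w ∈ (PP W)ᗮ, v - w ∈ PP W ∧ ∀ᵐ θ ∂(mm r), ‖(w : T r → E d) θ‖ ≤ 1

/-- RTR: approximation by continuous functions. -/
def ST_RTR : Prop := ∀ (r d : ℕ) (w : LL r d) (ε : ℝ), 0 < ε →
  (∀ᵐ θ ∂(mm r), ‖(w : T r → E d) θ‖ ≤ 1) → ∃ (c : T r → E d) (f : LL r d), Continuous c ∧
  (∀ θ, ‖c θ‖ ≤ 1) ∧ (∀ᵐ θ ∂(mm r), (f : T r → E d) θ = c θ) ∧ ‖f - w‖ ≤ ε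

/-- DEE: approximation by eigenvectors. -/
def ST_DEE : Prop := ∀ (r d : ℕ) (W : LL r d →L[ℂ] LL r d) (f : LL r d) (ε : ℝ),
  W ∈ unitary (LL r d →L[ℂ] LL r d) → f ∈ PP W → 0 < ε →
  ∃ (K : ℕ) (z : ℕ → ℂ) (g : ℕ → T r → E d) (g' : ℕ → LL r d), (∀ k, ‖z k‖ = 1) ∧
  (∀ k, Continuous (g k)) ∧ (∀ k, ∀ᵐ θ ∂(mm r), (g' k : T r → E d) θ = g k θ) ∧
  ∀ h : ℕ, ‖(W ^ h) f - ∑ k ∈ range K, (z k ^ h) • g' k‖ ≤ ε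

/-- DEC: the decomposition. -/
def ST_DEC : Prop := ∀ (r d : ℕ) (β : T r) (φ : T r → Op d) (v : T r → E d) (ε κ : ℝ), UC φ →
  Continuous v → (∀ θ, ‖v θ‖ ≤ 1) → 0 < ε → 0 < κ →
  ∃ b c : T r → E d, Continuous b ∧ Continuous c ∧ (∀ θ, b θ + c θ = v θ) ∧ (∀ θ, ‖c θ‖ ≤ 1) ∧
  (∃ (K : ℕ) (z : ℕ → ℂ) (g : ℕ → T r → E d), (∀ k, ‖z k‖ = 1 ∧ Continuous (g k)) ∧
    ∀ h : ℕ, ∫ θ, ‖Wk β φ h b θ - ∑ k ∈ range K, (z k ^ h) • g k θ‖ ^ 2 ∂(mm r) ≤ ε ^ 2) ∧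
  ∃ Cn : ℕ, 1 ≤ Cn ∧ ∀ᶠ i : ℕ in atTop, Rich 1 i →
    ∑ p ∈ PB 1 i, ∑ h ∈ range (Cn * 2 ^ i), ∑ h' ∈ range (Cn * 2 ^ i),
      ‖∫ θ, EE β φ c (p * h) (p * h') θ ∂(mm r)‖ ^ 2 ≤
    κ * (PB 1 i).card * ((Cn : ℝ) * 2 ^ i) ^ 2

/-! ## Block P: the theorem for the torus -/

/-- MRF: the theorem of Matomaki and Radziwill with weights. -/
def ST_MRF : Prop := ∀ δ : ℝ, 0 < δ → ∃ L₀ : ℕ, ∀ L : ℕ, L₀ ≤ L → ∃ N₀ : ℕ, ∀ N : ℕ, N₀ ≤ N →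
  ∀ c : ℕ → ℂ, (∀ j, ‖c j‖ ≤ 1) →
  ∑ m ∈ range N, ‖∑ j ∈ range L, ((ArithmeticFunction.moebius (m + j) : ℤ) : ℂ) * c j‖ ≤
    δ * L * N

/-- PTB: the structured part. -/
def ST_PTB : Prop := ∀ (r d : ℕ) (β : T r) (φ : T r → Op d) (b : T r → E d) (u : E d) (x : T r)
  (ε : ℝ) (K : ℕ) (z : ℕ → ℂ) (g : ℕ → T r → E d), Ind β → UC φ → Continuous b →
  ‖u‖ ≤ 1 → 0 ≤ ε → (∀ k, ‖z k‖ = 1 ∧ Continuous (g k)) →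
  (∀ h : ℕ, ∫ θ, ‖Wk β φ h b θ - ∑ k ∈ range K, (z k ^ h) • g k θ‖ ^ 2 ∂(mm r) ≤ ε ^ 2) →
  ∀ δ : ℝ, 0 < δ → ∀ᶠ N : ℕ in atTop, ‖MS (ff β φ b u x) N‖ ≤ (ε + δ) * N

/-- PTC: the random part. -/
def ST_PTC : Prop := ∀ (r d : ℕ) (β : T r) (φ : T r → Op d) (c : T r → E d) (u : E d) (x : T r)
  (η : ℝ) (Cn : ℕ), Ind β → UC φ → LM φ → Continuous c → (∀ θ, ‖c θ‖ ≤ 1) → ‖u‖ ≤ 1 → 0 < η →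
  1 ≤ Cn → (∀ᶠ i : ℕ in atTop, Rich 1 i →
    ∑ p ∈ PB 1 i, ∑ h ∈ range (Cn * 2 ^ i), ∑ h' ∈ range (Cn * 2 ^ i),
      ‖∫ θ, EE β φ c (p * h) (p * h') θ ∂(mm r)‖ ^ 2 ≤
    (η / 32) ^ 4 / 2 * (PB 1 i).card * ((Cn : ℝ) * 2 ^ i) ^ 2) →
  ∀ᶠ N : ℕ in atTop, ‖MS (ff β φ c u x) N‖ ≤ η * N

/-- THA: the theorem. -/
def ST_THA : Prop := ∀ (r d : ℕ) (β : T r) (φ : T r → Op d) (v : T r → E d) (u : E d) (x : T r),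
  Ind β → UC φ → LM φ → Continuous v →
  Tendsto (fun N : ℕ => MS (ff β φ v u x) N / (N : ℂ)) atTop (𝓝 0)

/-! ## Block C: C*-algebras -/

universe u

open Pool.Agent.Helper40.Mob (IsState TwistedDisjoint)

/-- the modulus of continuity of the entries is `o(1 / log² (1 / t))` -/
def LMM {r : ℕ} {ι : Type} (Φ : T r → Matrix ι ι ℂ) : Prop :=
  ∀ i j, ∀ ε : ℝ, 0 < ε → ∃ t₀ : ℝ, 0 < t₀ ∧ t₀ < 1 ∧ ∀ t : ℝ, 0 < t → t ≤ t₀ →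
    ∀ θ θ' : T r, dist θ θ' ≤ t → ‖Φ θ i j - Φ θ' i j‖ ≤ ε / (Real.log t) ^ 2

/-- the elements `v i` of the algebra are transformed by the cocycle `Φ` -/
def Fam {A : Type u} [CStarAlgebra A] {r : ℕ} (α : A →⋆ₐ[ℂ] A) (π : C(T r, ℂ) →⋆ₐ[ℂ] A)
    {ι : Type} [Fintype ι] [DecidableEq ι] (Φ : C(T r, Matrix ι ι ℂ)) (v : ι → A) : Prop :=
  (∀ θ, Φ θ ∈ Matrix.unitaryGroup ι ℂ) ∧ LMM (fun θ => Φ θ) ∧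
  ∀ i, α (v i) = ∑ j, π ⟨fun θ => Φ θ i j, by fun_prop⟩ * v j

/-- the action on the functions on the torus is the rotation by `β` -/
def Rot {A : Type u} [CStarAlgebra A] {r : ℕ} (β : T r) (α : A →⋆ₐ[ℂ] A)
    (π : C(T r, ℂ) →⋆ₐ[ℂ] A) : Prop :=
  ∀ f : C(T r, ℂ), α (π f) = π ⟨fun θ => f (θ + β), by fun_prop⟩

/-- RMF: bounded pointwise convergence. -/
def ST_RMF : Prop := ∀ (A : Type u) [CStarAlgebra A] (r : ℕ) (π : C(T r, ℂ) →⋆ₐ[ℂ] A)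
  (ρ : A →L[ℂ] ℂ) (a : A) (F : ℕ → C(T r, ℂ)) (B : ℝ), IsState ρ → (∀ n θ, ‖F n θ‖ ≤ B) →
  (∀ θ, Tendsto (fun n => F n θ) atTop (𝓝 0)) →
  Tendsto (fun n => ρ (π (F n) * a)) atTop (𝓝 0)

/-- CIT: the iterates of a family. -/
def ST_CIT : Prop := ∀ (A : Type u) [CStarAlgebra A] (r d : ℕ) (β : T r) (α : A →⋆ₐ[ℂ] A)
  (π : C(T r, ℂ) →⋆ₐ[ℂ] A) (Φ : C(T r, Matrix (Fin d) (Fin d) ℂ)) (v : Fin d → A),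
  Rot β α π → Fam α π Φ v → ∀ (n : ℕ) (i : Fin d), ∃ F : Fin d → C(T r, ℂ),
  (∀ j θ, F j θ = inner ℂ (EuclideanSpace.single i (1 : ℂ))
    (co β (fun θ => Matrix.toEuclideanCLM (𝕜 := ℂ) (Φ θ)) n θ
      (EuclideanSpace.single j (1 : ℂ)))) ∧ α^[n] (v i) = ∑ j, π (F j) * v j

/-- CTH: the theorem for one family. -/
def ST_CTH : Prop := ∀ (A : Type u) [CStarAlgebra A] (r d : ℕ) (β : T r) (α : A →⋆ₐ[ℂ] A)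
  (π : C(T r, ℂ) →⋆ₐ[ℂ] A) (Φ : C(T r, Matrix (Fin d) (Fin d) ℂ)) (v : Fin d → A), Ind β →
  Rot β α π → Fam α π Φ v → ∀ i, TwistedDisjoint α (v i)

/-- CSP: the theorem for the closed linear span. -/
def ST_CSP : Prop := ∀ (A : Type u) [CStarAlgebra A] (r : ℕ) (β : T r) (α : A →⋆ₐ[ℂ] A)
  (π : C(T r, ℂ) →⋆ₐ[ℂ] A), Ind β → Rot β α π → ∀ a : A,
  a ∈ closure ((Submodule.span ℂ {x : A | ∃ (d : ℕ) (Φ : C(T r, Matrix (Fin d) (Fin d) ℂ))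
    (v : Fin d → A), Fam α π Φ v ∧ ∃ i, v i = x} : Submodule ℂ A) : Set A) →
  TwistedDisjoint α a

/-! ## Block X: skew products -/

/-- the phase space -/
abbrev XX (r d : ℕ) : Type := T r × Matrix.unitaryGroup (Fin d) ℂ

/-- the skew product -/
noncomputable def SK {r d : ℕ} (β : T r) (Φ : C(T r, Matrix.unitaryGroup (Fin d) ℂ)) :
    XX r d → XX r d := fun y => (y.1 + β, Φ y.1 * y.2)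

/-- XPR: products and conjugates of families. -/
def ST_XPR : Prop := ∀ (A : Type) [CommCStarAlgebra A] (r : ℕ) (α : A →⋆ₐ[ℂ] A)
  (π : C(T r, ℂ) →⋆ₐ[ℂ] A) (d d' : ℕ) (Φ : C(T r, Matrix (Fin d) (Fin d) ℂ))
  (Φ' : C(T r, Matrix (Fin d') (Fin d') ℂ)) (v : Fin d → A) (v' : Fin d' → A),
  Fam α π Φ v → Fam α π Φ' v' →
  (∀ i i', ∃ (e : ℕ) (Ψ : C(T r, Matrix (Fin e) (Fin e) ℂ)) (w : Fin e → A),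
    Fam α π Ψ w ∧ ∃ k, w k = v i * v' i') ∧
  (∀ i, ∃ (e : ℕ) (Ψ : C(T r, Matrix (Fin e) (Fin e) ℂ)) (w : Fin e → A),
    Fam α π Ψ w ∧ ∃ k, w k = star (v i))

/-- XSW: the families span a dense subspace. -/
def ST_XSW : Prop := ∀ (r d : ℕ) (β : T r) (Φ : C(T r, Matrix.unitaryGroup (Fin d) ℂ)),
  LMM (fun θ => (Φ θ : Matrix (Fin d) (Fin d) ℂ)) →
  ∃ (α : C(XX r d, ℂ) →⋆ₐ[ℂ] C(XX r d, ℂ)) (π : C(T r, ℂ) →⋆ₐ[ℂ] C(XX r d, ℂ)),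
  (∀ (F : C(XX r d, ℂ)) (y : XX r d), α F y = F (SK β Φ y)) ∧ Rot β α π ∧
  closure ((Submodule.span ℂ {x : C(XX r d, ℂ) | ∃ (e : ℕ)
    (Ψ : C(T r, Matrix (Fin e) (Fin e) ℂ)) (v : Fin e → C(XX r d, ℂ)),
    Fam α π Ψ v ∧ ∃ i, v i = x} : Submodule ℂ C(XX r d, ℂ)) : Set C(XX r d, ℂ)) = Set.univ

/-- XTH: the theorem for skew products. -/
def ST_XTH : Prop := ∀ (r d : ℕ) (β : T r) (Φ : C(T r, Matrix.unitaryGroup (Fin d) ℂ)), Ind β →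
  LMM (fun θ => (Φ θ : Matrix (Fin d) (Fin d) ℂ)) → ∀ (F : C(XX r d, ℂ)) (y : XX r d),
  Tendsto (fun N : ℕ => MS (fun n => F ((SK β Φ)^[n] y)) N / (N : ℂ)) atTop (𝓝 0)

/-- the skew product with values in a subgroup -/
noncomputable def SKG {r d : ℕ} (G : Subgroup (Matrix.unitaryGroup (Fin d) ℂ)) (β : T r)
    (Φ : C(T r, G)) : T r × G → T r × G := fun y => (y.1 + β, Φ y.1 * y.2)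

/-- XGR: the theorem for skew products with values in a closed subgroup. -/
def ST_XGR : Prop := ∀ (r d : ℕ) (G : Subgroup (Matrix.unitaryGroup (Fin d) ℂ)) (β : T r)
  (Φ : C(T r, G)), IsClosed (G : Set (Matrix.unitaryGroup (Fin d) ℂ)) → Ind β →
  LMM (fun θ => ((Φ θ : Matrix.unitaryGroup (Fin d) ℂ) : Matrix (Fin d) (Fin d) ℂ)) →
  ∀ (F : C(T r × G, ℂ)) (y : T r × G),
  Tendsto (fun N : ℕ => MS (fun n => F ((SKG G β Φ)^[n] y)) N / (N : ℂ)) atTop (𝓝 0)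

end Pool.Agent.Helper16.AZ
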