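import Pool.Agent.Helper14.AZ.XGR
import Pool.Agent.Helper15.AZ.L1Z
import Pool.Agent.Helper16.AZ.Stmts
import Pool.Agent.Helper16.MD.All
import Pool.Agent.Helper2.AZ.CTH
import Pool.Agent.Helper24.AZ.MSR
import Pool.Agent.Helper25.AZ.MRF
import Pool.Agent.Helper30.AZ.TWP
import Pool.Agent.Helper35.AZ.GAM
import Pool.Agent.Helper38.AZ.FUR
import Pool.Agent.Helper4.AZ.ASY
import Pool.Agent.Helper40.MR.All
import Pool.Agent.Helper42.AZ.EXV
import Pool.Agent.Helper42.AZ.VDH
import Pool.Agent.Helper45.AZ.PIN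
import Pool.Agent.Helper49.AZ.CNT
import Pool.Agent.Helper53.AZ.PTB
import Pool.Agent.Helper53.AZ.PTC
import Pool.Agent.Helper57.AZ.ATM
import Pool.Agent.Helper61.AZ.KT1
import Pool.Agent.Helper63.AZ.WOP
import Pool.Agent.Helper67.AZ.CIT
import Pool.Agent.Helper67.AZ.CSP
import Pool.Agent.Helper67.AZ.MOD
import Pool.Agent.Helper67.AZ.WPW
import Pool.Agent.Helper68.AZ.XSW
import Pool.Agent.Helper7.AZ.FTR
import Pool.Agent.Helper72.AZ.XPR
import Pool.Agent.Helper77.AZ.RTR
import Pool.Agent.Helper78.AZ.FUM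
import Pool.Agent.Helper79.AZ.ATA
import Pool.Agent.Helper8.AZ.AVG
import Pool.Agent.Helper8.AZ.XTH
import Pool.Agent.Helper81.AZ.DEC
import Pool.Agent.Helper83.AZ.TLR
import Pool.Agent.Helper84.AZ.EQD
import Pool.Agent.Helper9.AZ.FPV
import Pool.Agent.Helper94.AZ.RMF
import Pool.Agent.Helper94.AZ.THA
import Pool.Agent.Helper95.AZ.DEE
import Pool.Agent.Helper97.AZ.DEW

/-!
Assembly of the modules: compact group extensions of minimal rotations of the torus.
-/

namespace Pool.Agent.Helper16.AZ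

universe u

theorem all_KT1 : ST_KT1 := st_KT1 Pool.Agent.Helper16.MD.st_TKA

theorem all_EQD : ST_EQD := st_EQD

theorem all_VDH : ST_VDH := st_VDH

theorem all_GAM : ST_GAM := st_GAM all_EQD all_VDH

theorem all_EXV : ST_EXV := st_EXV

theorem all_FPV : ST_FPV := st_FPV

theorem all_FTR : ST_FTR := st_FTR

theorem all_TLR : ST_TLR := st_TLR all_FPV

theorem all_FUR : ST_FUR := st_FUR all_FPV all_FTR

theorem all_CNT : ST_CNT := Pool.Agent.Helper49.AZ.CNT_res

theorem all_FUM : ST_FUM := st_FUM all_FUR all_CNT all_TLR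

theorem all_MOD : ST_MOD := st_MOD

theorem all_ASY : ST_ASY := st_ASY all_MOD

theorem all_WOP : ST_WOP := st_WOP

theorem all_WPW : ST_WPW := st_WPW

theorem all_MSR : ST_MSR := st_MSR

theorem all_TWP : ST_TWP := st_TWP

theorem all_AVG : ST_AVG := st_AVG all_TWP

theorem all_ATA : ST_ATA := st_ATA all_AVG

theorem all_ATM : ST_ATM := st_ATM all_MSR all_ATA

theorem all_L1Z : ST_L1Z := st_L1Z

theorem all_PIN : ST_PIN := st_PIN all_L1Z

theorem all_DEW : ST_DEW := st_DEW all_PIN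

theorem all_RTR : ST_RTR := st_RTR

theorem all_DEE : ST_DEE := st_DEE

theorem all_DEC : ST_DEC := st_DEC all_WOP all_WPW all_ATM all_DEW all_RTR all_DEE

theorem all_MRF : ST_MRF := st_MRF Pool.Agent.Helper40.MR.all_NT

theorem all_PTB : ST_PTB := Pool.Agent.Helper53.AZ.PTB all_MRF all_EQD

theorem all_PTC : ST_PTC := Pool.Agent.Helper53.AZ.PTC all_KT1 all_GAM all_EXV all_FUM all_ASY Pool.Agent.Helper16.MD.all_WND

theorem all_THA : ST_THA := st_THA all_DEC all_PTB all_PTC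

theorem all_RMF : ST_RMF.{u} := st_RMF

theorem all_CIT : ST_CIT.{u} := st_CIT

theorem all_CTH : ST_CTH.{u} := Pool.Agent.Helper2.AZ.CTH.cth_res all_THA all_RMF all_CIT

theorem all_CSP : ST_CSP.{u} := st_CSP all_CTH

theorem all_XPR : ST_XPR := st_XPR

theorem all_XSW : ST_XSW := st_XSW all_XPR

theorem all_XTH : ST_XTH := st_XTH all_CSP all_XSW

theorem all_XGR : ST_XGR := st_XGR all_XTH

end Pool.Agent.Helper16.AZ
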