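import Mathlib

/-!
Moebius disjointness of compact group extensions of minimal rotations of the torus:
definitions for the modules (MP_7a8f48_an).
-/

open Finset Filter MeasureTheory
open scoped ComplexConjugate

namespace Pool.Agent.Helper16.AZ

/-- the torus -/
abbrev T (r : ℕ) : Type := UnitAddTorus (Fin r)

/-- the Hilbert space of dimension `d` -/
abbrev E (d : ℕ) : Type := EuclideanSpace ℂ (Fin d)

/-- operators on `E d` -/
abbrev Op (d : ℕ) : Type := E d →L[ℂ] E d

/-- the probability Haar measure of the torus -/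
noncomputable def mm (r : ℕ) : Measure (T r) := Measure.pi fun _ => AddCircle.haarAddCircle

instance (r : ℕ) : IsProbabilityMeasure (mm r) := by unfold mm; infer_instance

instance (r : ℕ) : (mm r).IsAddHaarMeasure := by unfold mm; infer_instance

instance (r : ℕ) : (mm r).IsAddLeftInvariant := inferInstance

instance (r : ℕ) : (mm r).Regular := inferInstance

/-- the rotation by `β` is minimal -/
def Ind {r : ℕ} (β : T r) : Prop := ∀ X : Fin r → ℤ, X ≠ 0 → ∑ i, X i • β i ≠ 0

/-- the cocycle `φ(x + (n - 1) β) ⋯ φ(x + β) φ(x)` -/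
noncomputable def co {r d : ℕ} (β : T r) (φ : T r → Op d) : ℕ → T r → Op d
  | 0, _ => 1
  | n + 1, x => φ (x + n • β) * co β φ n x

/-- the values of `φ` are unitary and `φ` is continuous -/
def UC {r d : ℕ} (φ : T r → Op d) : Prop := Continuous φ ∧ ∀ θ, φ θ ∈ unitary (Op d)

/-- the modulus of continuity of `φ` is `o(1 / log² (1 / t))` -/
def LM {r d : ℕ} (φ : T r → Op d) : Prop := ∀ ε : ℝ, 0 < ε → ∃ t₀ : ℝ, 0 < t₀ ∧ t₀ < 1 ∧
  ∀ t : ℝ, 0 < t → t ≤ t₀ → ∀ θ θ' : T r, dist θ θ' ≤ t → ‖φ θ - φ θ'‖ ≤ ε / (Real.log t) ^ 2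

/-- the powers of the operator `b ↦ φ* b(· + β)` -/
noncomputable def Wk {r d : ℕ} (β : T r) (φ : T r → Op d) (k : ℕ) (b : T r → E d) (θ : T r) : E d :=
  star (co β φ k θ) (b (θ + k • β))

/-- inner products of the iterates -/
noncomputable def EE {r d : ℕ} (β : T r) (φ : T r → Op d) (b : T r → E d) (k k' : ℕ) (θ : T r) :
    ℂ := inner ℂ (Wk β φ k b θ) (Wk β φ k' b θ)

/-- the sequence -/
noncomputable def ff {r d : ℕ} (β : T r) (φ : T r → Op d) (b : T r → E d) (u : E d) (x : T r)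
    (n : ℕ) : ℂ := inner ℂ (b (x + n • β)) (co β φ n x u)

/-- bound for the square of the correlations -/
noncomputable def GG {r d : ℕ} (β : T r) (φ : T r → Op d) (b : T r → E d) (x : T r)
    (H P P' : ℕ) : ℝ :=
  (∑ h ∈ range H, ∑ h' ∈ range H, (∫ θ, EE β φ b (P * h) (P * h') (x + P • θ) *
    conj (EE β φ b (P' * h) (P' * h') (x + P' • θ)) ∂(mm r)).re) / (H : ℝ) ^ 2

/-- Fourier coefficients -/
noncomputable def fc {r : ℕ} (F : T r → ℂ) (X : Fin r → ℤ) : ℂ :=
  ∫ θ, UnitAddTorus.mFourier (-X) θ * F θ ∂(mm r)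

/-- square integrable functions -/
abbrev LL (r d : ℕ) : Type := Lp (E d) 2 (mm r)

/-- `W` acts by `b ↦ φ* b(· + β)` -/
def Act {r d : ℕ} (β : T r) (φ : T r → Op d) (W : LL r d →L[ℂ] LL r d) : Prop :=
  ∀ f : LL r d, ∀ᵐ θ ∂(mm r), (W f : T r → E d) θ = star (φ θ) ((f : T r → E d) (θ + β))

/-- eigenvectors -/
def Eig {H : Type} [NormedAddCommGroup H] [InnerProductSpace ℂ H] (U : H →L[ℂ] H) (η : H) : Prop :=
  ∃ z : ℂ, ‖z‖ = 1 ∧ U η = z • η

/-- the closed subspace spanned by the eigenvectors -/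
noncomputable def PP {H : Type} [NormedAddCommGroup H] [InnerProductSpace ℂ H] (U : H →L[ℂ] H) :
    Submodule ℂ H := (Submodule.span ℂ {η : H | Eig U η}).topologicalClosure

/-! ### basic facts -/

section basic

variable {r d : ℕ} (β : T r) (φ : T r → Op d)

@[simp] theorem co_zero (x : T r) : co β φ 0 x = 1 := rfl

theorem co_succ (n : ℕ) (x : T r) : co β φ (n + 1) x = φ (x + n • β) * co β φ n x := rfl

theorem co_add (m n : ℕ) (x : T r) : co β φ (m + n) x = co β φ m (x + n • β) * co β φ n x := by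
  induction m with
  | zero => simp
  | succ m ih =>
    have h : m + 1 + n = (m + n) + 1 := by omega
    have h2 : x + (m + n) • β = x + n • β + m • β := by rw [add_smul]; abel
    rw [h, co_succ, ih, h2, co_succ β φ m (x + n • β), mul_assoc]

theorem co_unitary (h : ∀ θ, φ θ ∈ unitary (Op d)) (n : ℕ) (x : T r) :
    co β φ n x ∈ unitary (Op d) := by
  induction n with
  | zero => exact one_mem _
  | succ n ih => exact mul_mem (h _) ih

theorem co_continuous (h : Continuous φ) (n : ℕ) : Continuous (co β φ n) := by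
  induction n with
  | zero => exact continuous_const
  | succ n ih => exact (h.comp (by fun_prop)).mul ih

theorem unitary_norm {A : Op d} (hA : A ∈ unitary (Op d)) (v : E d) : ‖A v‖ = ‖v‖ :=
  ContinuousLinearMap.norm_map_of_mem_unitary hA v

theorem unitary_inner {A : Op d} (hA : A ∈ unitary (Op d)) (v w : E d) :
    inner ℂ (A v) (A w) = inner ℂ v w := by
  rw [← ContinuousLinearMap.adjoint_inner_right, ← ContinuousLinearMap.star_eq_adjoint]
  have : star A (A w) = (star A * A) w := rfl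
  rw [this, (Unitary.mem_iff.1 hA).1]
  rfl

theorem unitary_star {A : Op d} (hA : A ∈ unitary (Op d)) : star A ∈ unitary (Op d) :=
  Unitary.star_mem hA

theorem inner_star (A : Op d) (v w : E d) : inner ℂ (star A v) w = inner ℂ v (A w) := by
  rw [ContinuousLinearMap.star_eq_adjoint, ContinuousLinearMap.adjoint_inner_left]

variable (b : T r → E d)

@[simp] theorem Wk_zero (θ : T r) : Wk β φ 0 b θ = b θ := by simp [Wk]

theorem Wk_one (θ : T r) : Wk β φ 1 b θ = star (φ θ) (b (θ + β)) := by simp [Wk, co_succ]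

theorem Wk_add (m n : ℕ) (θ : T r) :
    Wk β φ (m + n) b θ = star (co β φ n θ) (Wk β φ m b (θ + n • β)) := by
  unfold Wk
  rw [co_add, star_mul, add_smul]
  have : θ + (m • β + n • β) = θ + n • β + m • β := by abel
  rw [this]
  rfl

theorem Wk_comp (m n : ℕ) (θ : T r) : Wk β φ (m + n) b θ = Wk β φ n (Wk β φ m b) θ :=
  Wk_add β φ b m n θ

theorem Wk_norm (h : ∀ θ, φ θ ∈ unitary (Op d)) (k : ℕ) (θ : T r) :
    ‖Wk β φ k b θ‖ = ‖b (θ + k • β)‖ :=
  unitary_norm (unitary_star (co_unitary β φ h k θ)) _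

theorem Wk_continuous (h : Continuous φ) (hb : Continuous b) (k : ℕ) :
    Continuous (Wk β φ k b) := by
  unfold Wk
  have h1 : Continuous fun θ => star (co β φ k θ) :=
    (ContinuousLinearMap.adjoint : Op d ≃ₗᵢ⋆[ℂ] Op d).continuous.comp (co_continuous β φ h k)
  exact h1.clm_apply (hb.comp (by fun_prop))

theorem ff_eq (u : E d) (x : T r) (n : ℕ) : ff β φ b u x n = inner ℂ (Wk β φ n b x) u := by
  unfold ff Wk
  rw [inner_star]

theorem ff_add (u : E d) (x : T r) (m n : ℕ) :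
    ff β φ b u x (m + n) = inner ℂ (Wk β φ m b (x + n • β)) (co β φ n x u) := by
  rw [ff_eq, Wk_add, inner_star]

theorem ff_norm (h : ∀ θ, φ θ ∈ unitary (Op d)) (u : E d) (x : T r) (n : ℕ) (B : ℝ)
    (hb : ∀ θ, ‖b θ‖ ≤ B) (hu : ‖u‖ ≤ 1) : ‖ff β φ b u x n‖ ≤ B := by
  unfold ff
  refine (norm_inner_le_norm _ _).trans ?_
  rw [unitary_norm (co_unitary β φ h n x)]
  have h0 : 0 ≤ ‖b (x + n • β)‖ := norm_nonneg _
  nlinarith [hb (x + n • β), norm_nonneg u]

theorem EE_continuous (h : Continuous φ) (hb : Continuous b) (k k' : ℕ) :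
    Continuous (EE β φ b k k') :=
  (Wk_continuous β φ b h hb k).inner (Wk_continuous β φ b h hb k')

theorem EE_norm (h : ∀ θ, φ θ ∈ unitary (Op d)) (hb : ∀ θ, ‖b θ‖ ≤ 1) (k k' : ℕ) (θ : T r) :
    ‖EE β φ b k k' θ‖ ≤ 1 := by
  refine (norm_inner_le_norm _ _).trans ?_
  rw [Wk_norm β φ b h, Wk_norm β φ b h]
  have h1 := hb (θ + k • β)
  have h2 := hb (θ + k' • β)
  nlinarith [norm_nonneg (b (θ + k • β)), norm_nonneg (b (θ + k' • β))]

theorem EE_shift (h : ∀ θ, φ θ ∈ unitary (Op d)) (k k' n : ℕ) (θ : T r) :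
    inner ℂ (Wk β φ (k + n) b θ) (Wk β φ (k' + n) b θ) = EE β φ b k k' (θ + n • β) := by
  rw [Wk_add, Wk_add, unitary_inner (unitary_star (co_unitary β φ h n θ))]
  rfl

end basic

theorem isCompact_ug (d : ℕ) :
    IsCompact {A : Matrix (Fin d) (Fin d) ℂ | A ∈ Matrix.unitaryGroup (Fin d) ℂ} := by
  have h1 : {A : Matrix (Fin d) (Fin d) ℂ | A ∈ Matrix.unitaryGroup (Fin d) ℂ} ⊆
      (Set.pi Set.univ fun _ => Set.pi Set.univ fun _ => Metric.closedBall (0 : ℂ) 1) := by
    intro A hA i _ j _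
    simpa using entry_norm_bound_of_unitary hA i j
  have h2 : IsCompact (Set.pi Set.univ fun _ : Fin d => Set.pi Set.univ fun _ : Fin d =>
      Metric.closedBall (0 : ℂ) 1) :=
    isCompact_univ_pi fun _ => isCompact_univ_pi fun _ => isCompact_closedBall _ _
  have h3 : IsClosed {A : Matrix (Fin d) (Fin d) ℂ | A ∈ Matrix.unitaryGroup (Fin d) ℂ} := by
    have : {A : Matrix (Fin d) (Fin d) ℂ | A ∈ Matrix.unitaryGroup (Fin d) ℂ} =
        {A | A * A.conjTranspose = 1} := by
      ext A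
      exact Matrix.mem_unitaryGroup_iff
    rw [this]
    exact isClosed_eq (by fun_prop) continuous_const
  exact h2.of_isClosed_subset h3 h1

instance (d : ℕ) : CompactSpace (Matrix.unitaryGroup (Fin d) ℂ) :=
  isCompact_iff_compactSpace.mp (isCompact_ug d)

end Pool.Agent.Helper16.AZ
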