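import Mathlib
import Pool.Agent.Helper40.Free.FDefs

/-!
Definitions used in the statement on group extensions of rotations of the torus.
-/

namespace Pool.Agent.Helper16.AZP

universe u

/-- the rotation of the torus `T^r` by `β` is minimal: no character of the torus except the trivial
one is equal to `1` at `β` -/
def Ind {r : ℕ} (β : UnitAddTorus (Fin r)) : Prop :=
  ∀ X : Fin r → ℤ, X ≠ 0 → ∑ i, X i • β i ≠ 0

/-- every entry of the matrix valued function `Φ` on the torus has a modulus of continuity `ω`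
with `ω(t) log² t → 0` for `t → 0` -/
def LMM {r : ℕ} {ι : Type} (Φ : UnitAddTorus (Fin r) → Matrix ι ι ℂ) : Prop :=
  ∀ i j, ∀ ε : ℝ, 0 < ε → ∃ t₀ : ℝ, 0 < t₀ ∧ t₀ < 1 ∧ ∀ t : ℝ, 0 < t → t ≤ t₀ →
    ∀ θ θ' : UnitAddTorus (Fin r), dist θ θ' ≤ t → ‖Φ θ i j - Φ θ' i j‖ ≤ ε / (Real.log t) ^ 2

/-- the skew product `(θ, g) ↦ (θ + β, Φ(θ) g)` -/
noncomputable def SKG {r d : ℕ} (G : Subgroup (Matrix.unitaryGroup (Fin d) ℂ))
    (β : UnitAddTorus (Fin r)) (Φ : C(UnitAddTorus (Fin r), G)) :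
    UnitAddTorus (Fin r) × G → UnitAddTorus (Fin r) × G := fun y => (y.1 + β, Φ y.1 * y.2)

/-- on the image of the functions on the torus the endomorphism `α` acts as the rotation by `β` -/
def Rot {A : Type u} [CStarAlgebra A] {r : ℕ} (β : UnitAddTorus (Fin r)) (α : A →⋆ₐ[ℂ] A)
    (π : C(UnitAddTorus (Fin r), ℂ) →⋆ₐ[ℂ] A) : Prop :=
  ∀ f : C(UnitAddTorus (Fin r), ℂ), α (π f) = π ⟨fun θ => f (θ + β), by fun_prop⟩

/-- `Φ` is a continuous function from the torus to the unitary group with the modulus of continuity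
`LMM` and `α (v i) = ∑ j, π (Φ i j) * v j` -/
def Fam {A : Type u} [CStarAlgebra A] {r : ℕ} (α : A →⋆ₐ[ℂ] A)
    (π : C(UnitAddTorus (Fin r), ℂ) →⋆ₐ[ℂ] A) {ι : Type} [Fintype ι] [DecidableEq ι]
    (Φ : C(UnitAddTorus (Fin r), Matrix ι ι ℂ)) (v : ι → A) : Prop :=
  (∀ θ, Φ θ ∈ Matrix.unitaryGroup ι ℂ) ∧ LMM (fun θ => Φ θ) ∧
  ∀ i, α (v i) = ∑ j, π ⟨fun θ => Φ θ i j, by fun_prop⟩ * v j

end Pool.Agent.Helper16.AZP
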